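import Mathlib

set_option autoImplicit false

open Finset

namespace Pool.Agent.TH475.SA

/-- `i` is the largest index in which `s` and `t` differ. -/
def Top (s t : Finset ℕ) (i : ℕ) : Prop := ¬(i ∈ s ↔ i ∈ t) ∧ ∀ j, i < j → (j ∈ s ↔ j ∈ t)

theorem Top.symm {s t : Finset ℕ} {i : ℕ} (h : Top s t i) : Top t s i :=
  ⟨fun h' => h.1 h'.symm, fun j hj => (h.2 j hj).symm⟩

theorem exists_top {s t : Finset ℕ} (h : s ≠ t) : ∃ i, Top s t i := by
  classical
  have hne : (symmDiff s t).Nonempty := by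
    rw [Finset.nonempty_iff_ne_empty]
    intro h0
    apply h
    have : symmDiff s t = ⊥ := h0
    exact symmDiff_eq_bot.mp this
  refine ⟨(symmDiff s t).max' hne, ?_, ?_⟩
  · have := (symmDiff s t).max'_mem hne
    rw [Finset.mem_symmDiff] at this
    tauto
  · intro j hj
    by_contra hcon
    have hmem : j ∈ symmDiff s t := by
      rw [Finset.mem_symmDiff]; tauto
    have := (symmDiff s t).le_max' j hmem
    omega

theorem Top.unique {s t : Finset ℕ} {i j : ℕ} (h : Top s t i) (h' : Top s t j) : i = j := by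
  rcases lt_trichotomy i j with hl | hl | hl
  · exact absurd (h.2 j hl) h'.1
  · exact hl
  · exact absurd (h'.2 i hl) h.1

/-- The value of a set. -/
def Fv (s : Finset ℕ) : ℕ := ∑ i ∈ s, 4 * 16 ^ i

theorem low_bound (s : Finset ℕ) (i : ℕ) :
    15 * (∑ j ∈ s.filter (fun j => j < i), 4 * 16 ^ j) + 4 ≤ 4 * 16 ^ i := by
  have h1 : ∑ j ∈ s.filter (fun j => j < i), 4 * 16 ^ j ≤ ∑ j ∈ range i, 4 * 16 ^ j := by
    apply Finset.sum_le_sum_of_subset
    intro j hj
    rw [mem_filter] at hj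
    exact mem_range.mpr hj.2
  have h2 : ∀ n : ℕ, 15 * (∑ j ∈ range n, 4 * 16 ^ j) + 4 = 4 * 16 ^ n := by
    intro n
    induction n with
    | zero => simp
    | succ n ih => rw [Finset.sum_range_succ, pow_succ]; omega
  have := h2 i
  omega

theorem Fv_split (s : Finset ℕ) (i : ℕ) :
    Fv s = (∑ j ∈ s.filter (fun j => j < i), 4 * 16 ^ j) + (if i ∈ s then 4 * 16 ^ i else 0)
      + ∑ j ∈ s.filter (fun j => i < j), 4 * 16 ^ j := by
  unfold Fv
  have h1 := Finset.sum_filter_add_sum_filter_not s (fun j => j < i) (fun j => 4 * 16 ^ j)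
  have h2 := Finset.sum_filter_add_sum_filter_not (s.filter (fun j => ¬ j < i)) (fun j => i < j)
    (fun j => 4 * 16 ^ j)
  rw [← h1, ← h2, Finset.filter_filter, Finset.filter_filter]
  have e1 : s.filter (fun j => ¬ j < i ∧ i < j) = s.filter (fun j => i < j) := by
    apply Finset.filter_congr
    intro j _
    omega
  have e2 : s.filter (fun j => ¬ j < i ∧ ¬ i < j) = if i ∈ s then {i} else ∅ := by
    split_ifs with hi
    · ext j
      simp only [mem_filter, mem_singleton]
      constructor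
      · rintro ⟨_, h⟩; omega
      · rintro rfl; exact ⟨hi, by omega⟩
    · ext j
      simp only [mem_filter, notMem_empty, iff_false]
      rintro ⟨hj, h⟩
      have : j = i := by omega
      subst this
      exact absurd hj hi
  rw [e1, e2]
  split_ifs with hi
  · simp; ring
  · simp

theorem Fv_top {s t : Finset ℕ} {i : ℕ} (h : Top s t i) (hi : i ∈ s) :
    ∃ L L' : ℕ, 15 * L + 4 ≤ 4 * 16 ^ i ∧ 15 * L' + 4 ≤ 4 * 16 ^ i ∧
      Fv s + L' = Fv t + 4 * 16 ^ i + L := by
  refine ⟨_, _, low_bound s i, low_bound t i, ?_⟩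
  have hit : i ∉ t := fun h' => h.1 ⟨fun _ => h', fun _ => hi⟩
  have e : s.filter (fun j => i < j) = t.filter (fun j => i < j) := by
    ext j
    simp only [mem_filter]
    constructor
    · rintro ⟨h1, h2⟩; exact ⟨(h.2 j h2).mp h1, h2⟩
    · rintro ⟨h1, h2⟩; exact ⟨(h.2 j h2).mpr h1, h2⟩
  rw [Fv_split s i, Fv_split t i, if_pos hi, if_neg hit, e]
  omega

theorem Fv_mem {s : Finset ℕ} {y : ℕ} (h : y ∈ s) : 4 * 16 ^ y ≤ Fv s := by
  unfold Fv
  exact Finset.single_le_sum (f := fun j => 4 * 16 ^ j) (fun _ _ => Nat.zero_le _) h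

theorem pow16_lt {a b : ℕ} (h : a < b) : 16 * 16 ^ a ≤ 16 ^ b := by
  have : 16 ^ (a + 1) ≤ 16 ^ b := Nat.pow_le_pow_right (by norm_num) h
  rw [pow_succ] at this
  omega

theorem pow16_le {a b : ℕ} (h : a ≤ b) : 16 ^ a ≤ 16 ^ b := Nat.pow_le_pow_right (by norm_num) h

/-- First exponent. -/
def al (p : ℕ × Finset ℕ) : ℕ := Fv p.2 - 16 ^ p.1

/-- Second exponent. -/
def be (p : ℕ × Finset ℕ) : ℕ := Fv p.2 - 2 * 16 ^ p.1

theorem al_be_aux {p q : ℕ × Finset ℕ} (hp : p.1 ∈ p.2) (hq : q.1 ∈ q.2) (hne : p ≠ q)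
    (hle : p.1 ≤ q.1) : (al p < al q ∧ be p < be q) ∨ (al q < al p ∧ be q < be p) := by
  obtain ⟨y, s⟩ := p
  obtain ⟨z, t⟩ := q
  simp only at hp hq hle
  unfold al be
  simp only
  have h1 := Fv_mem hp
  have h2 := Fv_mem hq
  have h3 := pow16_le hle
  have h0 : 0 < 16 ^ y := by positivity
  by_cases hst : s = t
  · subst hst
    have hlt : y < z := by
      rcases Nat.lt_or_ge y z with h | h
      · exact h
      · exfalso; apply hne
        have : y = z := by omega
        rw [this]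
    have := pow16_lt hlt
    omega
  · obtain ⟨i, hi⟩ := exists_top hst
    have key : ∃ L L' : ℕ, 15 * L + 4 ≤ 4 * 16 ^ i ∧ 15 * L' + 4 ≤ 4 * 16 ^ i ∧
      (Fv s + L' = Fv t + 4 * 16 ^ i + L ∨ Fv t + L' = Fv s + 4 * 16 ^ i + L) := by
      by_cases his : i ∈ s
      · obtain ⟨L, L', a, b, c⟩ := Fv_top hi his
        exact ⟨L, L', a, b, Or.inl c⟩
      · have hit : i ∈ t := by
          by_contra h
          exact hi.1 ⟨fun h' => absurd h' his, fun h' => absurd h' h⟩
        obtain ⟨L, L', a, b, c⟩ := Fv_top hi.symm hit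
        exact ⟨L, L', a, b, Or.inr c⟩
    obtain ⟨L, L', a, b, c⟩ := key
    rcases Nat.lt_or_ge i z with hiz | hiz
    · have h4 := pow16_lt hiz
      rcases Nat.lt_or_ge y z with hyz | hyz
      · have h5 := pow16_lt hyz
        omega
      · have : y = z := by omega
        subst this
        omega
    · have h4 := pow16_le hiz
      omega

theorem al_be {p q : ℕ × Finset ℕ} (hp : p.1 ∈ p.2) (hq : q.1 ∈ q.2) (hne : p ≠ q) :
    (al p < al q ∧ be p < be q) ∨ (al q < al p ∧ be q < be p) := by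
  rcases le_total p.1 q.1 with h | h
  · exact al_be_aux hp hq hne h
  · exact (al_be_aux hq hp hne.symm h).symm

/-- The relation of two levels. -/
def Rho (p q : ℕ × Finset ℕ) : Prop := p.1 < q.1 ∧ Top p.2 q.2 p.1

theorem Rho.pos {p q : ℕ × Finset ℕ} (hp : p.1 ∈ p.2) (hq : q.1 ∈ q.2) (h : Rho p q) :
    (al p + be q + 1 ≤ al q + be p) ∧ (2 * al q + 1 ≤ al p + be q) ∧
      (4 * be p + be q + 1 ≤ 3 * al p + 2 * al q) ∧ al q < al p := by
  obtain ⟨y, s⟩ := p
  obtain ⟨z, t⟩ := q
  unfold Rho at h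
  obtain ⟨h1, h2⟩ := h
  simp only at hp hq h1 h2
  unfold al be
  simp only
  have h3 := Fv_mem hp
  have h4 := Fv_mem hq
  have h5 := pow16_lt h1
  have h0 : 0 < 16 ^ y := by positivity
  obtain ⟨L, L', a, b, c⟩ := Fv_top h2 hp
  omega

theorem not_rho_neg {p q : ℕ × Finset ℕ} (hp : p.1 ∈ p.2) (hq : q.1 ∈ q.2) (h : ¬ Rho p q) :
    (al q + be p + 1 ≤ al p + be q) ∨ (al p + be q + 1 ≤ 2 * al q) ∨
      (3 * al p + 2 * al q + 1 ≤ 4 * be p + be q) := by
  obtain ⟨y, s⟩ := p
  obtain ⟨z, t⟩ := q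
  unfold Rho at h
  simp only at hp hq h
  unfold al be
  simp only
  have h3 := Fv_mem hp
  have h4 := Fv_mem hq
  have h0 : 0 < 16 ^ y := by positivity
  have h0' : 0 < 16 ^ z := by positivity
  rcases Nat.lt_or_ge z y with hzy | hzy
  · left
    have h5 := pow16_lt hzy
    omega
  · have h5 := pow16_le hzy
    right
    by_cases hst : s = t
    · subst hst
      left
      omega
    · obtain ⟨i, hi⟩ := exists_top hst
      by_cases his : i ∈ s
      · obtain ⟨L, L', a, b, c⟩ := Fv_top hi his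
        rcases lt_trichotomy i y with hiy | hiy | hiy
        · have h6 := pow16_lt hiy
          left
          omega
        · exfalso
          subst hiy
          rcases Nat.lt_or_ge i z with h7 | h7
          · exact h ⟨h7, hi⟩
          · have : i = z := by omega
            subst this
            exact hi.1 ⟨fun _ => hq, fun _ => hp⟩
        · have h6 := pow16_lt hiy
          right
          omega
      · have hit : i ∈ t := by
          by_contra h
          exact hi.1 ⟨fun h' => absurd h' his, fun h' => absurd h' h⟩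
        obtain ⟨L, L', a, b, c⟩ := Fv_top hi.symm hit
        left
        omega

/-- No triangles. -/
theorem rho_triangle {p q r : ℕ × Finset ℕ}
    (h1 : Rho p q) (h2 : Rho q r) (h3 : Rho p r) : False := by
  obtain ⟨a1, a2⟩ := h1
  obtain ⟨b1, b2⟩ := h2
  obtain ⟨c1, c2⟩ := h3
  exact b2.1 ((a2.2 q.1 a1).symm.trans (c2.2 q.1 a1))

end Pool.Agent.TH475.SA
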