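import Mathlib
import Pool.Agent.TH475.SA.Lev

set_option autoImplicit false

open Finset

namespace Pool.Agent.TH475.SA

/-- The levels. -/
def levels (k : ℕ) : Finset (ℕ × Finset ℕ) :=
  (range k ×ˢ (range k).powerset).filter (fun p => p.1 ∈ p.2)

theorem mem_levels {k : ℕ} {p : ℕ × Finset ℕ} :
    p ∈ levels k ↔ p.2 ⊆ range k ∧ p.1 ∈ p.2 := by
  unfold levels
  rw [mem_filter, mem_product, mem_powerset]
  constructor
  · rintro ⟨⟨_, h2⟩, h3⟩; exact ⟨h2, h3⟩
  · rintro ⟨h2, h3⟩; exact ⟨⟨h2 h3, h2⟩, h3⟩

theorem card_levels (k : ℕ) : k * 2 ^ k ≤ 2 * (levels k).card := by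
  classical
  have h1 := Finset.card_filter_add_card_filter_not (s := range k ×ˢ (range k).powerset)
    (fun p => p.1 ∈ p.2)
  rw [card_product, card_powerset, card_range] at h1
  have h2 : ((range k ×ˢ (range k).powerset).filter (fun p => ¬ p.1 ∈ p.2)).card ≤
      (levels k).card := by
    apply Finset.card_le_card_of_injOn (fun p => (p.1, insert p.1 p.2))
    · intro p hp
      rw [Finset.mem_coe, mem_filter, mem_product, mem_powerset] at hp
      rw [Finset.mem_coe, mem_levels]
      exact ⟨Finset.insert_subset hp.1.1 hp.1.2, Finset.mem_insert_self _ _⟩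
    · rintro ⟨y, s⟩ hp ⟨z, t⟩ hq h
      rw [Finset.mem_coe, mem_filter] at hp hq
      simp only [Prod.mk.injEq] at h hp hq
      obtain ⟨h1, h2⟩ := h
      subst h1
      have : s = t := by
        rw [← Finset.erase_insert hp.2, h2, Finset.erase_insert hq.2]
      rw [this]
  unfold levels at h2 ⊢
  omega

open Classical in
/-- Elements below `k` whose membership is determined inside `E` by the part above. -/
noncomputable def DD (E : Finset (Finset ℕ)) (k : ℕ) (s : Finset ℕ) : Finset ℕ :=
  (range k).filter fun y => ∀ t ∈ E, (∀ j, y < j → (j ∈ s ↔ j ∈ t)) → (y ∈ s ↔ y ∈ t)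

theorem sum_DD {E : Finset (Finset ℕ)} {k : ℕ} (hsub : ∀ s ∈ E, s ⊆ range k) :
    ∑ s ∈ E, 2 ^ (DD E k s).card ≤ 2 ^ k := by
  classical
  have h1 : (E.sigma fun s => (DD E k s).powerset).card ≤ ((range k).powerset).card := by
    apply Finset.card_le_card_of_injOn (fun x => symmDiff x.1 x.2)
    · intro x hx
      simp only [Finset.coe_sigma, Set.mem_sigma_iff, Finset.mem_coe, Finset.mem_powerset] at hx
      simp only [Finset.coe_powerset, Set.mem_preimage, Set.mem_powerset_iff, Finset.coe_subset]
      intro i hi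
      rw [Finset.mem_symmDiff] at hi
      rcases hi with hi | hi
      · exact hsub _ hx.1 hi.1
      · have := hx.2 hi.1
        unfold DD at this
        exact (Finset.mem_filter.mp this).1
    · rintro ⟨s, T⟩ hx ⟨t, T'⟩ hy hxy
      simp only [Finset.coe_sigma, Set.mem_sigma_iff, Finset.mem_coe, Finset.mem_powerset] at hx hy
      simp only at hxy
      obtain ⟨hs, hT⟩ := hx
      obtain ⟨ht, hT'⟩ := hy
      have hst : s = t := by
        by_contra hne
        obtain ⟨i, hi, hi2⟩ := exists_top hne
        have h1 : i ∉ T := by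
          intro h
          have := hT h
          unfold DD at this
          exact hi ((Finset.mem_filter.mp this).2 t ht hi2)
        have h2 : i ∉ T' := by
          intro h
          have := hT' h
          unfold DD at this
          exact hi ((Finset.mem_filter.mp this).2 s hs (fun j hj => (hi2 j hj).symm)).symm
        have : i ∈ symmDiff s T ↔ i ∈ symmDiff t T' := by rw [hxy]
        rw [Finset.mem_symmDiff, Finset.mem_symmDiff] at this
        tauto
      subst hst
      have : T = T' := symmDiff_right_injective s hxy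
      subst this
      rfl
  rw [Finset.card_sigma, Finset.card_powerset, Finset.card_range] at h1
  refine le_trans (le_of_eq ?_) h1
  exact Finset.sum_congr rfl fun s _ => (Finset.card_powerset _).symm

/-- The fibre of `I` over `s`. -/
def fib (I : Finset (ℕ × Finset ℕ)) (k : ℕ) (s : Finset ℕ) : Finset ℕ :=
  (range k).filter (fun y => (y, s) ∈ I)

/-- The sets whose fibre has largest element `b`. -/
noncomputable def EE (I : Finset (ℕ × Finset ℕ)) (k b : ℕ) : Finset (Finset ℕ) :=
  (range k).powerset.filter (fun s => b ∈ fib I k s ∧ ∀ y ∈ fib I k s, y ≤ b)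

theorem sum_EE {I : Finset (ℕ × Finset ℕ)} {k : ℕ} (hI : I ⊆ levels k)
    (hind : ∀ p ∈ I, ∀ q ∈ I, ¬ Rho p q) (b : ℕ) :
    ∑ s ∈ EE I k b, 2 ^ (fib I k s).card ≤ 2 * 2 ^ k := by
  classical
  have h1 : ∀ s ∈ EE I k b, s ⊆ range k := by
    intro s hs
    unfold EE at hs
    exact mem_powerset.mp (mem_filter.mp hs).1
  have h2 := sum_DD h1
  calc ∑ s ∈ EE I k b, 2 ^ (fib I k s).card
      ≤ ∑ s ∈ EE I k b, 2 * 2 ^ (DD (EE I k b) k s).card := by
        apply Finset.sum_le_sum
        intro s hs
        have hs' := hs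
        unfold EE at hs'
        rw [mem_filter] at hs'
        obtain ⟨_, hb, hmax⟩ := hs'
        have h3 : (fib I k s).erase b ⊆ DD (EE I k b) k s := by
          intro y hy
          rw [mem_erase] at hy
          have hyb : y < b := lt_of_le_of_ne (hmax y hy.2) hy.1
          unfold fib at hy
          rw [mem_filter] at hy
          have hyI := hy.2.2
          have hys : y ∈ s := (mem_levels.mp (hI hyI)).2
          unfold DD
          rw [mem_filter]
          refine ⟨hy.2.1, ?_⟩
          intro t ht hagree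
          by_contra hne
          have htb : (b, t) ∈ I := by
            unfold EE fib at ht
            rw [mem_filter, mem_filter] at ht
            exact ht.2.1.2
          exact hind _ hyI _ htb ⟨hyb, hne, hagree⟩
        have h4 := Finset.card_le_card h3
        rw [Finset.card_erase_of_mem hb] at h4
        rw [← pow_succ']
        apply Nat.pow_le_pow_right (by norm_num)
        omega
    _ = 2 * ∑ s ∈ EE I k b, 2 ^ (DD (EE I k b) k s).card := by rw [Finset.mul_sum]
    _ ≤ 2 * 2 ^ k := Nat.mul_le_mul_left _ h2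

theorem card_eq_sum_fib {I : Finset (ℕ × Finset ℕ)} {k : ℕ} (hI : I ⊆ levels k) :
    I.card = ∑ s ∈ (range k).powerset, (fib I k s).card := by
  classical
  have h1 : ∀ p ∈ I, p.2 ∈ (range k).powerset := fun p hp =>
    mem_powerset.mpr (mem_levels.mp (hI hp)).1
  rw [Finset.card_eq_sum_card_fiberwise h1]
  apply Finset.sum_congr rfl
  intro s _
  refine Finset.card_bij' (fun p _ => p.1) (fun y _ => (y, s)) ?_ ?_ ?_ ?_
  · intro p hp
    rw [mem_filter] at hp
    unfold fib
    rw [mem_filter]
    have := mem_levels.mp (hI hp.1)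
    refine ⟨this.1 this.2, ?_⟩
    rw [← hp.2]
    exact hp.1
  · intro y hy
    unfold fib at hy
    rw [mem_filter] at hy
    rw [mem_filter]
    exact ⟨hy.2, rfl⟩
  · intro p hp
    rw [mem_filter] at hp
    rw [← hp.2]
  · intro y _
    rfl

theorem nat_ineq (c r : ℕ) : c * 2 ^ r ≤ r * 2 ^ r + 2 ^ c := by
  rcases Nat.lt_or_ge c r with h | h
  · exact le_trans (Nat.mul_le_mul_right _ h.le) (Nat.le_add_right _ _)
  · obtain ⟨d, rfl⟩ := Nat.exists_eq_add_of_le h
    have h1 : d < 2 ^ d := Nat.lt_two_pow_self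
    have h2 : d * 2 ^ r ≤ 2 ^ d * 2 ^ r := Nat.mul_le_mul_right _ h1.le
    rw [add_mul, pow_add, mul_comm (2 ^ r) (2 ^ d)]
    omega

theorem ind_bound {I : Finset (ℕ × Finset ℕ)} {k r : ℕ} (hI : I ⊆ levels k)
    (hind : ∀ p ∈ I, ∀ q ∈ I, ¬ Rho p q) (hr : 2 * k ≤ 2 ^ r) :
    I.card ≤ (r + 1) * 2 ^ k := by
  classical
  have h1 := card_eq_sum_fib hI
  have h2 : ∀ s ∈ (range k).powerset, (fib I k s).card * 2 ^ r ≤ r * 2 ^ r +
      ∑ b ∈ range k, if s ∈ EE I k b then 2 ^ (fib I k s).card else 0 := by
    intro s hs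
    rcases (fib I k s).eq_empty_or_nonempty with h | h
    · rw [h]; simp
    · have hb := (fib I k s).max'_mem h
      set b := (fib I k s).max' h with hbdef
      have hmax : ∀ y ∈ fib I k s, y ≤ b := fun y hy => Finset.le_max' _ _ hy
      have hbk : b ∈ range k := by
        have := hb
        unfold fib at this
        exact (mem_filter.mp this).1
      have hE : s ∈ EE I k b := by
        unfold EE
        rw [mem_filter]
        exact ⟨hs, hb, hmax⟩
      have h3 : (if s ∈ EE I k b then 2 ^ (fib I k s).card else 0) ≤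
          ∑ b ∈ range k, if s ∈ EE I k b then 2 ^ (fib I k s).card else 0 :=
        Finset.single_le_sum (f := fun b => if s ∈ EE I k b then 2 ^ (fib I k s).card else 0)
          (fun _ _ => Nat.zero_le _) hbk
      rw [if_pos hE] at h3
      exact le_trans (nat_ineq _ r) (Nat.add_le_add_left h3 _)
  have h3 : I.card * 2 ^ r ≤ 2 ^ k * (r * 2 ^ r) + k * (2 * 2 ^ k) := by
    rw [h1, Finset.sum_mul]
    refine le_trans (Finset.sum_le_sum h2) ?_
    rw [Finset.sum_add_distrib, Finset.sum_const, card_powerset, card_range, smul_eq_mul]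
    apply Nat.add_le_add_left
    rw [Finset.sum_comm]
    have h4 : ∀ b ∈ range k, ∑ s ∈ (range k).powerset,
        (if s ∈ EE I k b then 2 ^ (fib I k s).card else 0) ≤ 2 * 2 ^ k := by
      intro b _
      rw [← Finset.sum_filter]
      have : (range k).powerset.filter (fun s => s ∈ EE I k b) = EE I k b := by
        ext s
        rw [mem_filter]
        constructor
        · exact fun h => h.2
        · intro h
          refine ⟨?_, h⟩
          unfold EE at h
          exact (mem_filter.mp h).1
      rw [this]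
      exact sum_EE hI hind b
    refine le_trans (Finset.sum_le_sum h4) ?_
    rw [Finset.sum_const, card_range, smul_eq_mul]
  have h5 : k * (2 * 2 ^ k) ≤ 2 ^ r * 2 ^ k := by
    calc k * (2 * 2 ^ k) = 2 * k * 2 ^ k := by ring
      _ ≤ 2 ^ r * 2 ^ k := Nat.mul_le_mul_right _ hr
  have h6 : I.card * 2 ^ r ≤ (r + 1) * 2 ^ k * 2 ^ r := by
    calc I.card * 2 ^ r ≤ 2 ^ k * (r * 2 ^ r) + k * (2 * 2 ^ k) := h3
      _ ≤ 2 ^ k * (r * 2 ^ r) + 2 ^ r * 2 ^ k := Nat.add_le_add_left h5 _
      _ = (r + 1) * 2 ^ k * 2 ^ r := by ring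
  exact Nat.le_of_mul_le_mul_right h6 (by positivity)

end Pool.Agent.TH475.SA
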