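import Mathlib
import Pool.Agent.TH475.SA.Ind

set_option autoImplicit false

open Finset

namespace Pool.Agent.TH475.SA

theorem digit_est {ι : Type} [Fintype ι] [DecidableEq ι] (e : ι → ℕ) (he : Function.Injective e)
    {Q A : ℕ} (hA : 2 * Q ≤ A) (w w' : ι → Fin Q) (p : ι) (hp : w p < w' p)
    (htop : ∀ i, e p < e i → w i = w' i) :
    (A : ℝ) ^ e p / 2 ≤
      (∑ i, ((w' i : ℕ) : ℝ) * (A : ℝ) ^ e i) - ∑ i, ((w i : ℕ) : ℝ) * (A : ℝ) ^ e i ∧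
    (∑ i, ((w' i : ℕ) : ℝ) * (A : ℝ) ^ e i) - ∑ i, ((w i : ℕ) : ℝ) * (A : ℝ) ^ e i ≤
      (Q : ℝ) * (A : ℝ) ^ e p := by
  have hQ : 1 ≤ Q := by
    have := (w p).2
    omega
  have hQ' : (1 : ℝ) ≤ Q := by exact_mod_cast hQ
  have hA' : (2 : ℝ) * Q ≤ A := by exact_mod_cast hA
  have hApos : (0 : ℝ) < A := by linarith
  have hdiff : (∑ i, ((w' i : ℕ) : ℝ) * (A : ℝ) ^ e i) - ∑ i, ((w i : ℕ) : ℝ) * (A : ℝ) ^ e i
      = ∑ i, (((w' i : ℕ) : ℝ) - ((w i : ℕ) : ℝ)) * (A : ℝ) ^ e i := by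
    rw [← Finset.sum_sub_distrib]
    exact Finset.sum_congr rfl fun i _ => by ring
  rw [hdiff, ← Finset.add_sum_erase _ _ (Finset.mem_univ p)]
  set T := ∑ i ∈ univ.erase p, (((w' i : ℕ) : ℝ) - ((w i : ℕ) : ℝ)) * (A : ℝ) ^ e i with hT
  set G := ∑ j ∈ range (e p), (A : ℝ) ^ j with hG
  have hgeom : G * ((A : ℝ) - 1) = (A : ℝ) ^ e p - 1 := geom_sum_mul _ _
  have hG0 : 0 ≤ G := Finset.sum_nonneg fun j _ => by positivity
  have hTabs : |T| ≤ ((Q : ℝ) - 1) * G := by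
    have h1 : |T| ≤ ∑ i ∈ univ.erase p, |(((w' i : ℕ) : ℝ) - ((w i : ℕ) : ℝ)) * (A : ℝ) ^ e i| :=
      Finset.abs_sum_le_sum_abs _ _
    have h2 : ∀ i ∈ univ.erase p, |(((w' i : ℕ) : ℝ) - ((w i : ℕ) : ℝ)) * (A : ℝ) ^ e i| ≤
        if e i < e p then ((Q : ℝ) - 1) * (A : ℝ) ^ e i else 0 := by
      intro i hi
      have hip : i ≠ p := (Finset.mem_erase.mp hi).1
      have hne : e i ≠ e p := fun h => hip (he h)
      split_ifs with h
      · rw [abs_mul, abs_of_nonneg (by positivity : (0 : ℝ) ≤ (A : ℝ) ^ e i)]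
        apply mul_le_mul_of_nonneg_right _ (by positivity)
        have h3 : ((w' i : ℕ) : ℝ) + 1 ≤ Q := by exact_mod_cast (w' i).2
        have h4 : ((w i : ℕ) : ℝ) + 1 ≤ Q := by exact_mod_cast (w i).2
        have h5 : (0 : ℝ) ≤ ((w' i : ℕ) : ℝ) := by positivity
        have h6 : (0 : ℝ) ≤ ((w i : ℕ) : ℝ) := by positivity
        rw [abs_le]
        constructor <;> linarith
      · have : e p < e i := by omega
        rw [htop i this]
        simp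
    refine le_trans h1 (le_trans (Finset.sum_le_sum h2) ?_)
    rw [← Finset.sum_filter, ← Finset.mul_sum]
    apply mul_le_mul_of_nonneg_left _ (by linarith)
    rw [← Finset.sum_image (s := (univ.erase p).filter (fun i => e i < e p)) (g := e)
      (f := fun j => (A : ℝ) ^ j) (fun a _ b _ h => he h)]
    apply Finset.sum_le_sum_of_subset_of_nonneg
    · intro j hj
      rw [Finset.mem_image] at hj
      obtain ⟨i, hi, rfl⟩ := hj
      exact Finset.mem_range.mpr (Finset.mem_filter.mp hi).2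
    · intro j _ _
      positivity
  have hT2 : 2 * |T| ≤ (A : ℝ) ^ e p := by
    have h1 : 2 * (((Q : ℝ) - 1) * G) ≤ ((A : ℝ) - 1) * G := by
      have : 2 * ((Q : ℝ) - 1) ≤ (A : ℝ) - 1 := by linarith
      calc 2 * (((Q : ℝ) - 1) * G) = 2 * ((Q : ℝ) - 1) * G := by ring
        _ ≤ _ := mul_le_mul_of_nonneg_right this hG0
    nlinarith
  have hT3 := abs_le.mp (le_refl |T|)
  have h7 : ((w p : ℕ) : ℝ) + 1 ≤ ((w' p : ℕ) : ℝ) := by
    have : (w p : ℕ) + 1 ≤ (w' p : ℕ) := hp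
    exact_mod_cast this
  have h8 : ((w' p : ℕ) : ℝ) + 1 ≤ Q := by exact_mod_cast (w' p).2
  have h9 : (0 : ℝ) ≤ ((w p : ℕ) : ℝ) := by positivity
  have hP : (0 : ℝ) < (A : ℝ) ^ e p := by positivity
  constructor
  · have : (A : ℝ) ^ e p ≤ (((w' p : ℕ) : ℝ) - ((w p : ℕ) : ℝ)) * (A : ℝ) ^ e p := by
      have : (1 : ℝ) ≤ (((w' p : ℕ) : ℝ) - ((w p : ℕ) : ℝ)) := by linarith
      nlinarith
    linarith
  · have : (((w' p : ℕ) : ℝ) - ((w p : ℕ) : ℝ)) * (A : ℝ) ^ e p ≤ ((Q : ℝ) - 1) * (A : ℝ) ^ e p := by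
      have : (((w' p : ℕ) : ℝ) - ((w p : ℕ) : ℝ)) ≤ (Q : ℝ) - 1 := by linarith
      exact mul_le_mul_of_nonneg_right this hP.le
    nlinarith

/-- The form of the four differences. -/
def form (a b c d : ℝ) : ℝ := a ^ 3 * c ^ 2 * b * d - a ^ 4 * c * d ^ 2 - a ^ 2 * c ^ 4 * b -
  b ^ 5 * d ^ 2

theorem form_pos {a b c d : ℝ} (ha : 0 < a) (hb : 0 < b) (hc : 0 < c) (hd : 0 < d)
    (h1 : 4 * (a * d) ≤ c * b) (h2 : 4 * c ^ 2 ≤ a * d) (h3 : 4 * (b ^ 4 * d) ≤ a ^ 3 * c ^ 2) :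
    0 ≤ form a b c d := by
  unfold form
  have e1 : a ^ 3 * c * d * (4 * (a * d)) ≤ a ^ 3 * c * d * (c * b) :=
    mul_le_mul_of_nonneg_left h1 (by positivity)
  have e2 : a ^ 2 * c ^ 2 * b * (4 * c ^ 2) ≤ a ^ 2 * c ^ 2 * b * (a * d) :=
    mul_le_mul_of_nonneg_left h2 (by positivity)
  have e3 : b * d * (4 * (b ^ 4 * d)) ≤ b * d * (a ^ 3 * c ^ 2) :=
    mul_le_mul_of_nonneg_left h3 (by positivity)
  have e4 : 0 < a ^ 3 * c ^ 2 * b * d := by positivity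
  nlinarith

theorem form_neg {a b c d : ℝ} (ha : 0 < a) (hb : 0 < b) (hc : 0 < c) (hd : 0 < d)
    (h : c * b < a * d ∨ a * d < c ^ 2 ∨ a ^ 3 * c ^ 2 < b ^ 4 * d) :
    form a b c d < 0 := by
  unfold form
  have e1 : 0 < a ^ 4 * c * d ^ 2 := by positivity
  have e2 : 0 < a ^ 2 * c ^ 4 * b := by positivity
  have e3 : 0 < b ^ 5 * d ^ 2 := by positivity
  rcases h with h | h | h
  · have : a ^ 3 * c * d * (c * b) < a ^ 3 * c * d * (a * d) :=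
      mul_lt_mul_of_pos_left h (by positivity)
    nlinarith
  · have : a ^ 2 * c ^ 2 * b * (a * d) < a ^ 2 * c ^ 2 * b * (c ^ 2) :=
      mul_lt_mul_of_pos_left h (by positivity)
    nlinarith
  · have : b * d * (a ^ 3 * c ^ 2) < b * d * (b ^ 4 * d) :=
      mul_lt_mul_of_pos_left h (by positivity)
    nlinarith

section scales

variable {a b c d P R S T Q A : ℝ}

theorem scale_pos (hQ : 1 ≤ Q) (hA : 128 * Q ^ 5 < A) (hP : 0 < P) (hR : 0 < R) (hS : 0 < S)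
    (hT : 0 < T) (a1 : P / 2 ≤ a) (a2 : a ≤ Q * P) (b1 : R / 2 ≤ b) (b2 : b ≤ Q * R)
    (c1 : S / 2 ≤ c) (c2 : c ≤ Q * S) (d1 : T / 2 ≤ d) (d2 : d ≤ Q * T)
    (h1 : A * (P * T) ≤ S * R) (h2 : A * S ^ 2 ≤ P * T) (h3 : A * (R ^ 4 * T) ≤ P ^ 3 * S ^ 2) :
    0 ≤ form a b c d := by
  have ha : 0 < a := by linarith
  have hb : 0 < b := by linarith
  have hc : 0 < c := by linarith
  have hd : 0 < d := by linarith
  have hQ2 : Q ^ 2 ≤ Q ^ 5 := pow_le_pow_right₀ hQ (by norm_num)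
  have hQ5 : 0 < Q ^ 5 := by positivity
  have hA2 : 16 * Q ^ 2 ≤ A := by nlinarith
  apply form_pos ha hb hc hd
  · calc 4 * (a * d) ≤ 4 * ((Q * P) * (Q * T)) := by gcongr
      _ = 16 * Q ^ 2 * (P * T) / 4 := by ring
      _ ≤ A * (P * T) / 4 := by gcongr
      _ ≤ S * R / 4 := by gcongr
      _ = (S / 2) * (R / 2) := by ring
      _ ≤ c * b := by gcongr
  · calc 4 * c ^ 2 ≤ 4 * (Q * S) ^ 2 := by gcongr
      _ = 16 * Q ^ 2 * S ^ 2 / 4 := by ring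
      _ ≤ A * S ^ 2 / 4 := by gcongr
      _ ≤ P * T / 4 := by gcongr
      _ = (P / 2) * (T / 2) := by ring
      _ ≤ a * d := by gcongr
  · calc 4 * (b ^ 4 * d) ≤ 4 * ((Q * R) ^ 4 * (Q * T)) := by gcongr
      _ = 128 * Q ^ 5 * (R ^ 4 * T) / 32 := by ring
      _ ≤ A * (R ^ 4 * T) / 32 := by gcongr
      _ ≤ P ^ 3 * S ^ 2 / 32 := by gcongr
      _ = (P / 2) ^ 3 * (S / 2) ^ 2 := by ring
      _ ≤ a ^ 3 * c ^ 2 := by gcongr

theorem scale_neg (hQ : 1 ≤ Q) (hA : 128 * Q ^ 5 < A) (hP : 0 < P) (hR : 0 < R) (hS : 0 < S)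
    (hT : 0 < T) (a1 : P / 2 ≤ a) (a2 : a ≤ Q * P) (b1 : R / 2 ≤ b) (b2 : b ≤ Q * R)
    (c1 : S / 2 ≤ c) (c2 : c ≤ Q * S) (d1 : T / 2 ≤ d) (d2 : d ≤ Q * T)
    (h : A * (S * R) ≤ P * T ∨ A * (P * T) ≤ S ^ 2 ∨ A * (P ^ 3 * S ^ 2) ≤ R ^ 4 * T) :
    form a b c d < 0 := by
  have ha : 0 < a := by linarith
  have hb : 0 < b := by linarith
  have hc : 0 < c := by linarith
  have hd : 0 < d := by linarith
  have hQ2 : Q ^ 2 ≤ Q ^ 5 := pow_le_pow_right₀ hQ (by norm_num)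
  have hQ5 : 0 < Q ^ 5 := by positivity
  have hA2 : 4 * Q ^ 2 < A := by nlinarith
  have hA5 : 32 * Q ^ 5 < A := by nlinarith
  apply form_neg ha hb hc hd
  rcases h with h | h | h
  · left
    calc c * b ≤ (Q * S) * (Q * R) := by gcongr
      _ = 4 * Q ^ 2 * (S * R) / 4 := by ring
      _ < A * (S * R) / 4 := by gcongr
      _ ≤ P * T / 4 := by gcongr
      _ = (P / 2) * (T / 2) := by ring
      _ ≤ a * d := by gcongr
  · right; left
    calc a * d ≤ (Q * P) * (Q * T) := by gcongr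
      _ = 4 * Q ^ 2 * (P * T) / 4 := by ring
      _ < A * (P * T) / 4 := by gcongr
      _ ≤ S ^ 2 / 4 := by gcongr
      _ = (S / 2) ^ 2 := by ring
      _ ≤ c ^ 2 := by gcongr
  · right; right
    calc a ^ 3 * c ^ 2 ≤ (Q * P) ^ 3 * (Q * S) ^ 2 := by gcongr
      _ = 32 * Q ^ 5 * (P ^ 3 * S ^ 2) / 32 := by ring
      _ < A * (P ^ 3 * S ^ 2) / 32 := by gcongr
      _ ≤ R ^ 4 * T / 32 := by gcongr
      _ = (R / 2) ^ 4 * (T / 2) := by ring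
      _ ≤ b ^ 4 * d := by gcongr

end scales

end Pool.Agent.TH475.SA
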