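import Mathlib
import Pool.Agent.TH475.SA.Geo

set_option autoImplicit false

open Finset

namespace Pool.Agent.TH475.SA

/-- The vertices. -/
abbrev V (k Q : ℕ) : Type := ↥(levels k) → Fin Q

/-- The base. -/
def bas (Q : ℕ) : ℕ := (2 * Q) ^ 7

/-- First coordinate. -/
noncomputable def ptX {k Q : ℕ} (w : V k Q) : ℝ :=
  ∑ i, ((w i : ℕ) : ℝ) * (bas Q : ℝ) ^ al i.1

/-- Second coordinate. -/
noncomputable def ptY {k Q : ℕ} (w : V k Q) : ℝ :=
  ∑ i, ((w i : ℕ) : ℝ) * (bas Q : ℝ) ^ be i.1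

/-- `w` is below `w'` with top difference at `p`. -/
def TopLt {k Q : ℕ} (w w' : V k Q) (p : ↥(levels k)) : Prop :=
  w p < w' p ∧ ∀ i : ↥(levels k), al p.1 < al i.1 → w i = w' i

theorem lev_mem {k : ℕ} (p : ↥(levels k)) : p.1.1 ∈ p.1.2 := (mem_levels.mp p.2).2

theorem al_inj (k : ℕ) : Function.Injective (fun p : ↥(levels k) => al p.1) := by
  intro p q h
  by_contra hne
  have hne' : p.1 ≠ q.1 := fun h' => hne (Subtype.ext h')
  have h : al p.1 = al q.1 := h
  rcases al_be (lev_mem p) (lev_mem q) hne' with h1 | h1 <;> omega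

theorem be_inj (k : ℕ) : Function.Injective (fun p : ↥(levels k) => be p.1) := by
  intro p q h
  by_contra hne
  have hne' : p.1 ≠ q.1 := fun h' => hne (Subtype.ext h')
  have h : be p.1 = be q.1 := h
  rcases al_be (lev_mem p) (lev_mem q) hne' with h1 | h1 <;> omega

theorem al_lt_of_be_lt {k : ℕ} (p q : ↥(levels k)) (h : be p.1 < be q.1) : al p.1 < al q.1 := by
  have hne' : p.1 ≠ q.1 := fun h' => by rw [h'] at h; exact lt_irrefl _ h
  rcases al_be (lev_mem p) (lev_mem q) hne' with h1 | h1 <;> omega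

theorem bas_ge {Q : ℕ} (_hQ : 1 ≤ Q) : 2 * Q ≤ bas Q := by
  unfold bas
  exact Nat.le_self_pow (by norm_num) _

theorem bas_gt {Q : ℕ} (hQ : 2 ≤ Q) : (128 : ℝ) * (Q : ℝ) ^ 5 < (bas Q : ℝ) := by
  have h : 128 * Q ^ 5 < bas Q := by
    unfold bas
    have h1 : 0 < Q ^ 5 := by positivity
    have h2 : 4 ≤ Q ^ 2 := by nlinarith
    calc 128 * Q ^ 5 < 128 * Q ^ 5 * 4 := by omega
      _ ≤ 128 * Q ^ 5 * Q ^ 2 := Nat.mul_le_mul_left _ h2
      _ = (2 * Q) ^ 7 := by ring
  exact_mod_cast h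

theorem TopLt.estX {k Q : ℕ} {w w' : V k Q} {p : ↥(levels k)} (h : TopLt w w' p) :
    (bas Q : ℝ) ^ al p.1 / 2 ≤ ptX w' - ptX w ∧
      ptX w' - ptX w ≤ (Q : ℝ) * (bas Q : ℝ) ^ al p.1 := by
  have hQ : 1 ≤ Q := by
    have := (w p).2
    omega
  exact digit_est (fun i : ↥(levels k) => al i.1) (al_inj k) (bas_ge hQ) w w' p h.1
    (fun i hi => h.2 i hi)

theorem TopLt.estY {k Q : ℕ} {w w' : V k Q} {p : ↥(levels k)} (h : TopLt w w' p) :
    (bas Q : ℝ) ^ be p.1 / 2 ≤ ptY w' - ptY w ∧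
      ptY w' - ptY w ≤ (Q : ℝ) * (bas Q : ℝ) ^ be p.1 := by
  have hQ : 1 ≤ Q := by
    have := (w p).2
    omega
  exact digit_est (fun i : ↥(levels k) => be i.1) (be_inj k) (bas_ge hQ) w w' p h.1
    (fun i hi => h.2 i (al_lt_of_be_lt _ _ hi))

theorem TopLt.lt {k Q : ℕ} {w w' : V k Q} {p : ↥(levels k)} (h : TopLt w w' p) :
    ptX w < ptX w' := by
  have hQ : 1 ≤ Q := by
    have := (w p).2
    omega
  have h1 := h.estX.1
  have h2 : 0 < (bas Q : ℝ) := by
    have := bas_ge hQ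
    have : 0 < bas Q := by omega
    exact_mod_cast this
  have h3 : 0 < (bas Q : ℝ) ^ al p.1 := by positivity
  linarith

theorem exists_topLt {k Q : ℕ} {w w' : V k Q} (h : w ≠ w') :
    ∃ p, TopLt w w' p ∨ TopLt w' w p := by
  classical
  have hne : (univ.filter (fun i => w i ≠ w' i)).Nonempty := by
    by_contra hcon
    rw [Finset.not_nonempty_iff_eq_empty, Finset.filter_eq_empty_iff] at hcon
    apply h
    funext i
    have := hcon (Finset.mem_univ i)
    exact not_not.mp this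
  obtain ⟨p, hp, hmax⟩ := Finset.exists_max_image _ (fun i : ↥(levels k) => al i.1) hne
  rw [Finset.mem_filter] at hp
  have hagree : ∀ i : ↥(levels k), al p.1 < al i.1 → w i = w' i := by
    intro i hi
    by_contra hcon
    have := hmax i (Finset.mem_filter.mpr ⟨Finset.mem_univ _, hcon⟩)
    omega
  refine ⟨p, ?_⟩
  rcases lt_or_gt_of_ne hp.2 with h1 | h1
  · exact Or.inl ⟨h1, hagree⟩
  · exact Or.inr ⟨h1, fun i hi => (hagree i hi).symm⟩

theorem topLt_of_lt {k Q : ℕ} {w w' : V k Q} (h : ptX w < ptX w') : ∃ p, TopLt w w' p := by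
  have hne : w ≠ w' := fun h' => by rw [h'] at h; exact lt_irrefl _ h
  obtain ⟨p, hp | hp⟩ := exists_topLt hne
  · exact ⟨p, hp⟩
  · exact absurd hp.lt (not_lt.mpr h.le)

theorem ptX_inj {k Q : ℕ} : Function.Injective (ptX : V k Q → ℝ) := by
  intro w w' h
  by_contra hne
  obtain ⟨p, hp | hp⟩ := exists_topLt hne
  · exact absurd h (ne_of_lt hp.lt)
  · exact absurd h.symm (ne_of_lt hp.lt)

theorem TopLt.trans {k Q : ℕ} {w1 w2 w3 : V k Q} {p q : ↥(levels k)} (h : TopLt w1 w2 p)
    (h' : TopLt w2 w3 q) (hqp : al q.1 < al p.1) : TopLt w1 w3 p := by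
  refine ⟨?_, fun i hi => (h.2 i hi).trans (h'.2 i (hqp.trans hi))⟩
  rw [← h'.2 p hqp]
  exact h.1

/-- Sign of the form at three vertices. -/
theorem form_iff {k Q : ℕ} (hQ : 2 ≤ Q) {w1 w2 w3 : V k Q} {p q : ↥(levels k)}
    (h : TopLt w1 w2 p) (h' : TopLt w2 w3 q) :
    0 ≤ form (ptX w2 - ptX w1) (ptY w2 - ptY w1) (ptX w3 - ptX w2) (ptY w3 - ptY w2) ↔
      Rho p.1 q.1 := by
  have hQ' : (1 : ℝ) ≤ Q := by
    have : 1 ≤ Q := by omega
    exact_mod_cast this
  have hA := bas_gt hQ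
  have hApos : (0 : ℝ) < (bas Q : ℝ) := by
    have : (0 : ℝ) < 128 * (Q : ℝ) ^ 5 := by positivity
    linarith
  have hA1 : (1 : ℝ) ≤ (bas Q : ℝ) := by
    have : 1 ≤ bas Q := by
      have := bas_ge (Q := Q) (by omega)
      omega
    exact_mod_cast this
  have a1 := h.estX
  have b1 := h.estY
  have c1 := h'.estX
  have d1 := h'.estY
  have hmp := lev_mem p
  have hmq := lev_mem q
  constructor
  · intro hf
    by_contra hr
    have hneg := not_rho_neg hmp hmq hr
    have := scale_neg hQ' hA (P := (bas Q : ℝ) ^ al p.1) (R := (bas Q : ℝ) ^ be p.1)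
      (S := (bas Q : ℝ) ^ al q.1) (T := (bas Q : ℝ) ^ be q.1)
      (by positivity) (by positivity) (by positivity) (by positivity)
      a1.1 a1.2 b1.1 b1.2 c1.1 c1.2 d1.1 d1.2 (by
        rcases hneg with h1 | h1 | h1
        · left
          rw [← pow_add, ← pow_add, ← pow_succ']
          exact pow_le_pow_right₀ hA1 h1
        · right; left
          rw [← pow_add, ← pow_mul, ← pow_succ']
          apply pow_le_pow_right₀ hA1
          omega
        · right; right
          rw [← pow_mul, ← pow_mul, ← pow_mul, ← pow_add, ← pow_add, ← pow_succ']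
          apply pow_le_pow_right₀ hA1
          omega)
    linarith
  · intro hr
    obtain ⟨h1, h2, h3, _⟩ := hr.pos hmp hmq
    exact scale_pos hQ' hA (P := (bas Q : ℝ) ^ al p.1) (R := (bas Q : ℝ) ^ be p.1)
      (S := (bas Q : ℝ) ^ al q.1) (T := (bas Q : ℝ) ^ be q.1)
      (by positivity) (by positivity) (by positivity) (by positivity)
      a1.1 a1.2 b1.1 b1.2 c1.1 c1.2 d1.1 d1.2
      (by
        rw [← pow_add, ← pow_add, ← pow_succ']
        exact pow_le_pow_right₀ hA1 h1)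
      (by
        rw [← pow_add, ← pow_mul, ← pow_succ']
        apply pow_le_pow_right₀ hA1
        omega)
      (by
        rw [← pow_mul, ← pow_mul, ← pow_mul, ← pow_add, ← pow_add, ← pow_succ']
        apply pow_le_pow_right₀ hA1
        omega)

/-- Edge condition on vertices. -/
def EdgeV {k Q : ℕ} (w1 w2 w3 : V k Q) : Prop :=
  0 ≤ form (ptX w2 - ptX w1) (ptY w2 - ptY w1) (ptX w3 - ptX w2) (ptY w3 - ptY w2)

theorem no_four {k Q : ℕ} (hQ : 2 ≤ Q) {w1 w2 w3 w4 : V k Q}
    (h12 : ptX w1 < ptX w2) (h23 : ptX w2 < ptX w3) (h34 : ptX w3 < ptX w4)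
    (e1 : EdgeV w1 w2 w3) (e2 : EdgeV w2 w3 w4) (e3 : EdgeV w1 w3 w4) : False := by
  obtain ⟨p, hp⟩ := topLt_of_lt h12
  obtain ⟨q, hq⟩ := topLt_of_lt h23
  obtain ⟨r, hr⟩ := topLt_of_lt h34
  have r1 := (form_iff hQ hp hq).mp e1
  have r2 := (form_iff hQ hq hr).mp e2
  have hpq : al q.1 < al p.1 := (r1.pos (lev_mem p) (lev_mem q)).2.2.2
  have r3 := (form_iff hQ (hp.trans hq hpq) hr).mp e3
  exact rho_triangle r1 r2 r3

open Classical in
/-- The levels used below `x` inside `S`. -/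
noncomputable def RR {k Q : ℕ} (S : Finset (V k Q)) (x : V k Q) : Finset ↥(levels k) :=
  univ.filter (fun i => ∃ z ∈ S, TopLt z x i)

theorem card_ind {k Q a : ℕ} (hQ : 2 ≤ Q) (S : Finset (V k Q))
    (hS : ∀ x ∈ S, ∀ y ∈ S, ∀ z ∈ S, ptX x < ptX y → ptX y < ptX z → ¬ EdgeV x y z)
    (ha : ∀ I : Finset (ℕ × Finset ℕ), I ⊆ levels k → (∀ p ∈ I, ∀ q ∈ I, ¬ Rho p q) → I.card ≤ a) :
    S.card ≤ Q ^ a * 2 ^ (levels k).card := by
  classical
  have hR : ∀ x ∈ S, (RR S x).card ≤ a := by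
    intro x hx
    have h1 := ha ((RR S x).map ⟨Subtype.val, Subtype.val_injective⟩) ?_ ?_
    · rwa [Finset.card_map] at h1
    · intro p hp
      rw [Finset.mem_map] at hp
      obtain ⟨p', _, rfl⟩ := hp
      exact p'.2
    · intro p hp q hq hrho
      rw [Finset.mem_map] at hp hq
      obtain ⟨p', hp', rfl⟩ := hp
      obtain ⟨q', hq', rfl⟩ := hq
      have hrho : Rho p'.1 q'.1 := hrho
      unfold RR at hp' hq'
      rw [Finset.mem_filter] at hp' hq'
      obtain ⟨_, y, hy, hyx⟩ := hp'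
      obtain ⟨_, z, hz, hzx⟩ := hq'
      have hqp : al q'.1 < al p'.1 := (hrho.pos (lev_mem p') (lev_mem q')).2.2.2
      have hyz : TopLt y z p' := by
        refine ⟨?_, fun i hi => (hyx.2 i hi).trans (hzx.2 i (hqp.trans hi)).symm⟩
        rw [hzx.2 p' hqp]
        exact hyx.1
      exact hS y hy z hz x hx hyz.lt hzx.lt ((form_iff hQ hyz hzx).mpr hrho)
  have hfib : ∀ R ∈ S.image (RR S), (S.filter (fun x => RR S x = R)).card ≤ Q ^ a := by
    intro R hRm
    rw [Finset.mem_image] at hRm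
    obtain ⟨x0, hx0, rfl⟩ := hRm
    have h1 : (S.filter (fun x => RR S x = RR S x0)).card ≤
        (univ : Finset (↥(RR S x0) → Fin Q)).card := by
      apply Finset.card_le_card_of_injOn (fun x i => x i.1)
      · intro x _
        exact Finset.mem_coe.mpr (Finset.mem_univ _)
      · intro x hx x' hx' heq
        rw [Finset.mem_coe, Finset.mem_filter] at hx hx'
        by_contra hne
        obtain ⟨p, hp | hp⟩ := exists_topLt hne
        · have hmem : p ∈ RR S x' := by
            unfold RR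
            rw [Finset.mem_filter]
            exact ⟨Finset.mem_univ _, x, hx.1, hp⟩
          rw [hx'.2] at hmem
          have := congrFun heq ⟨p, hmem⟩
          exact absurd this (ne_of_lt hp.1)
        · have hmem : p ∈ RR S x := by
            unfold RR
            rw [Finset.mem_filter]
            exact ⟨Finset.mem_univ _, x', hx'.1, hp⟩
          rw [hx.2] at hmem
          have := congrFun heq ⟨p, hmem⟩
          exact absurd this.symm (ne_of_lt hp.1)
    rw [Finset.card_univ, Fintype.card_fun, Fintype.card_fin, Fintype.card_coe] at h1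
    exact le_trans h1 (Nat.pow_le_pow_right (by omega) (hR x0 hx0))
  have h2 := Finset.card_le_mul_card_image S (Q ^ a) hfib
  refine le_trans h2 (Nat.mul_le_mul_left _ ?_)
  refine le_trans (Finset.card_le_univ _) ?_
  rw [Fintype.card_finset, Fintype.card_coe]

/-- Sorted enumeration of all vertices. -/
theorem exists_enum (k Q : ℕ) : ∃ g : Fin (Q ^ (levels k).card) → V k Q,
    StrictMono (fun i => ptX (g i)) := by
  classical
  have hc : (univ.image (ptX : V k Q → ℝ)).card = Q ^ (levels k).card := by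
    rw [Finset.card_image_of_injective _ ptX_inj, Finset.card_univ, Fintype.card_fun,
      Fintype.card_fin, Fintype.card_coe]
  have hmem : ∀ i, ∃ w : V k Q, ptX w = (univ.image (ptX : V k Q → ℝ)).orderEmbOfFin hc i := by
    intro i
    have := Finset.orderEmbOfFin_mem (univ.image (ptX : V k Q → ℝ)) hc i
    rw [Finset.mem_image] at this
    obtain ⟨w, _, hw⟩ := this
    exact ⟨w, hw⟩
  choose g hg using hmem
  refine ⟨g, ?_⟩
  intro i j hij
  simp only [hg]
  exact ((univ.image (ptX : V k Q → ℝ)).orderEmbOfFin hc).strictMono hij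

end Pool.Agent.TH475.SA
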